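import Pool.Agent.TH84.SF.Spec

/-!
# Second specification: strong spatial mixing, subshifts of finite type
-/

set_option autoImplicit false

namespace Pool.Agent.TH84.SF

/-- strong spatial mixing (definition of the results file StrongSpatialMixing). -/
def SMix {G A : Type} [Group G] (X : Set (G → A)) : Prop :=
  ∃ Δ : Finset G, ∀ U V W : Finset G, (∀ u ∈ U, ∀ d ∈ Δ, u * d ∉ V) →
    ∀ x₁ ∈ X, ∀ x₂ ∈ X, (∀ w ∈ W, x₁ w = x₂ w) →
      ∃ z ∈ X, (∀ u ∈ U, z u = x₁ u) ∧ (∀ v ∈ V, z v = x₂ v) ∧ ∀ w ∈ W, z w = x₁ w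

/-- topological Markov property. -/
def Markov {G A : Type} [Group G] (X : Set (G → A)) : Prop :=
  ∀ E : Finset G, ∃ E' : Finset G, ∀ x ∈ X, ∀ y ∈ X,
      (∀ g ∈ E', g ∉ E → x g = y g) → ∀ z : G → A, (∀ g ∈ E, z g = x g) →
      (∀ g, g ∉ E → z g = y g) → z ∈ X

/-- (T1) `E' = E ∪ E Δ`; mix `x` (on `E`) and `y` (on a finite set off `E'`) relative to
`W = E' \ E`, then use that `X` is closed. -/
def S_T1 : Prop :=
  ∀ (G A : Type) [Group G] [TopologicalSpace A] [DiscreteTopology A]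
    (X : Set (G → A)), IsClosed X → SMix X → Markov X

/-- (T2) strong spatial mixing gives models on every almost exact action.  Let `D' = Δ ∪ {1}`,
`R = W ∪ D'`, `F` large, `Good = {v | Ex s F v}`.  Add the vertices of `Good` one after the other
with the invariant: for all `u ∈ Good` there is `x ∈ X` with `m (s r u) = x r` for all `r ∈ R` with
`s r u ∈ D` (`D` = the vertices labelled so far).  Adding `v`: `x_v ∈ X` for `v`, put
`m v = x_v 1`; for `u ∈ Good` with `v = s r0 u`, `r0 ∈ R`, mix `x_v (r0⁻¹ * ·)` on `U = {r0}` with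
`x_u` on `V = {r ∈ R | s r u ∈ D, r ∉ r0 D'}` relative to `W = {r ∈ R | s r u ∈ D, r ∈ r0 D'}`. -/
def S_T2 : Prop :=
  ∀ (G A : Type) [Group G] (X : Set (G → A)), (∀ g : G, ∀ x ∈ X, (fun h => x (g⁻¹ * h)) ∈ X) →
    SMix X → X.Nonempty → ∀ W : Finset G, ∃ F : Finset G, ∀ (V : Type) [Fintype V]
    (s : G → Equiv.Perm V) (U : Finset V), (∀ v, v ∉ U → Ex s F v) →
    ∃ m : V → A, ∀ v, v ∉ U → (∀ w ∈ W, s w v ∉ U) → ∃ x ∈ X, ∀ w ∈ W, m (s w v) = x w

/-- (T3) subshifts of finite type are Markov: `E' = E ∪ E D⁻¹ D`. -/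
def S_T3 : Prop :=
  ∀ (G A : Type) [Group G] (X : Set (G → A)), (∃ (D : Finset G) (P : Set (D → A)),
    X = {x | ∀ g : G, (fun d : D => x (g * d.1)) ∈ P}) → Markov X

end Pool.Agent.TH84.SF
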