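import Pool.Agent.TH84.SF.Spec

/-!
# Sofic approximations give almost exact right actions; local filling rules
-/

set_option autoImplicit false

namespace Pool.Agent.TH84.SF

open Finset

theorem card_not_le {V : Type} [Fintype V] (p : V → Prop) [DecidablePred p] (ε : ℝ)
    (h : (1 - ε) * Nat.card V ≤ Nat.card {v : V // p v}) :
    ((univ.filter fun v => ¬ p v).card : ℝ) ≤ ε * Fintype.card V := by
  classical
  have h1 : (univ.filter fun v => p v).card + (univ.filter fun v => ¬ p v).card =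
      Fintype.card V := by
    rw [card_filter_add_card_filter_not]
    rfl
  rw [Nat.card_eq_fintype_card, Nat.card_eq_fintype_card, Fintype.card_subtype] at h
  have h2 : ((univ.filter fun v => p v).card : ℝ) + ((univ.filter fun v => ¬ p v).card : ℝ) =
      Fintype.card V := by exact_mod_cast h1
  linarith

/-- exactness off a small set -/
theorem ex_of_sofic {G : Type} [Group G] (F : Finset G) (ε : ℝ) (hε : 0 < ε) :
    ∃ (F' : Finset G) (δ : ℝ), 0 < δ ∧ δ ≤ ε ∧ ∀ (V : Type) [Fintype V] (σ : G → Equiv.Perm V),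
      (∀ g ∈ F', ∀ h ∈ F',
        (1 - δ) * Nat.card V ≤ Nat.card {v : V // σ (g * h) v = σ g (σ h v)} ∧
        (g ≠ 1 → (1 - δ) * Nat.card V ≤ Nat.card {v : V // σ g v ≠ v})) →
      ∃ U : Finset V, (U.card : ℝ) ≤ ε * Fintype.card V ∧
        ∀ v, v ∉ U → Ex (fun g => σ g⁻¹) F v := by
  classical
  obtain ⟨F', hF'⟩ : ∃ F' : Finset G, F' = insert 1 (F ∪ F.image (fun g => g⁻¹) ∪
      F.biUnion (fun h => F.image fun g => h * g⁻¹)) := ⟨_, rfl⟩
  have hone : (1 : G) ∈ F' := by rw [hF']; exact mem_insert_self _ _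
  have hF1 : ∀ g ∈ F, g ∈ F' := by
    intro g hg
    rw [hF']
    exact mem_insert_of_mem (mem_union_left _ (mem_union_left _ hg))
  have hF2 : ∀ g ∈ F, g⁻¹ ∈ F' := by
    intro g hg
    rw [hF']
    exact mem_insert_of_mem (mem_union_left _ (mem_union_right _ (mem_image.2 ⟨g, hg, rfl⟩)))
  have hF3 : ∀ h ∈ F, ∀ g ∈ F, h * g⁻¹ ∈ F' := by
    intro h hh g hg
    rw [hF']
    exact mem_insert_of_mem (mem_union_right _ (mem_biUnion.2 ⟨h, hh, mem_image.2 ⟨g, hg, rfl⟩⟩))
  have hcpos : (1 : ℝ) ≤ (F'.card : ℝ) := by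
    exact_mod_cast card_pos.2 ⟨1, hone⟩
  have hden : (0 : ℝ) < 2 * (F'.card : ℝ) ^ 2 := by positivity
  refine ⟨F', ε / (2 * (F'.card : ℝ) ^ 2), by positivity, ?_, ?_⟩
  · refine div_le_self hε.le ?_
    nlinarith
  intro V _ σ hσ
  obtain ⟨P, hP⟩ : ∃ P : G → G → Finset V, ∀ g h, P g h =
      univ.filter (fun v => ¬ (σ (g * h) v = σ g (σ h v))) := ⟨_, fun _ _ => rfl⟩
  obtain ⟨Q, hQ⟩ : ∃ Q : G → Finset V, ∀ g, Q g =
      if g = 1 then ∅ else univ.filter (fun v => ¬ (σ g v ≠ v)) := ⟨_, fun _ => rfl⟩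
  refine ⟨F'.biUnion (fun g => F'.biUnion fun h => P g h ∪ Q g), ?_, ?_⟩
  · have h1 : ∀ g ∈ F', ∀ h ∈ F', ((P g h ∪ Q g).card : ℝ) ≤
        2 * (ε / (2 * (F'.card : ℝ) ^ 2)) * Fintype.card V := by
      intro g hg h hh
      have e1 : ((P g h).card : ℝ) ≤ ε / (2 * (F'.card : ℝ) ^ 2) * Fintype.card V := by
        rw [hP]
        exact card_not_le _ _ (hσ g hg h hh).1
      have e2 : ((Q g).card : ℝ) ≤ ε / (2 * (F'.card : ℝ) ^ 2) * Fintype.card V := by
        rw [hQ]
        split_ifs with h1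
        · simp only [card_empty, Nat.cast_zero]
          positivity
        · exact card_not_le _ _ ((hσ g hg h hh).2 h1)
      have e3 : ((P g h ∪ Q g).card : ℝ) ≤ (P g h).card + (Q g).card := by
        exact_mod_cast card_union_le _ _
      linarith
    have h2 : ∀ g ∈ F', ((F'.biUnion fun h => P g h ∪ Q g).card : ℝ) ≤
        F'.card * (2 * (ε / (2 * (F'.card : ℝ) ^ 2)) * Fintype.card V) := by
      intro g hg
      calc ((F'.biUnion fun h => P g h ∪ Q g).card : ℝ)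
          ≤ ((∑ h ∈ F', (P g h ∪ Q g).card : ℕ) : ℝ) := by exact_mod_cast card_biUnion_le
        _ = ∑ h ∈ F', ((P g h ∪ Q g).card : ℝ) := by push_cast; rfl
        _ ≤ ∑ h ∈ F', (2 * (ε / (2 * (F'.card : ℝ) ^ 2)) * Fintype.card V) :=
            sum_le_sum fun h hh => h1 g hg h hh
        _ = _ := by rw [sum_const, nsmul_eq_mul]
    calc ((F'.biUnion fun g => F'.biUnion fun h => P g h ∪ Q g).card : ℝ)
        ≤ ((∑ g ∈ F', (F'.biUnion fun h => P g h ∪ Q g).card : ℕ) : ℝ) := by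
          exact_mod_cast card_biUnion_le
      _ = ∑ g ∈ F', ((F'.biUnion fun h => P g h ∪ Q g).card : ℝ) := by push_cast; rfl
      _ ≤ ∑ g ∈ F', (F'.card * (2 * (ε / (2 * (F'.card : ℝ) ^ 2)) * Fintype.card V)) :=
          sum_le_sum fun g hg => h2 g hg
      _ = ε * Fintype.card V := by
          rw [sum_const, nsmul_eq_mul]
          have : (F'.card : ℝ) ≠ 0 := by positivity
          field_simp
  · intro v hv
    have hm : ∀ g ∈ F', ∀ h ∈ F', σ (g * h) v = σ g (σ h v) := by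
      intro g hg h hh
      by_contra hne
      refine hv (mem_biUnion.2 ⟨g, hg, mem_biUnion.2 ⟨h, hh, mem_union_left _ ?_⟩⟩)
      rw [hP]
      exact mem_filter.2 ⟨mem_univ _, hne⟩
    have hfree : ∀ g ∈ F', σ g v = v → g = 1 := by
      intro g hg he
      by_contra hne
      refine hv (mem_biUnion.2 ⟨g, hg, mem_biUnion.2 ⟨1, hone, mem_union_right _ ?_⟩⟩)
      rw [hQ, if_neg hne]
      exact mem_filter.2 ⟨mem_univ _, fun h => h he⟩
    have h1 : σ 1 v = v := by
      have := hm 1 hone 1 hone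
      rw [mul_one] at this
      exact ((σ 1).injective this).symm
    refine ⟨by simpa using h1, ?_, ?_⟩
    · intro g hg h hh
      show σ h⁻¹ (σ g⁻¹ v) = σ (g * h)⁻¹ v
      rw [mul_inv_rev]
      exact (hm _ (hF2 h hh) _ (hF2 g hg)).symm
    · intro g hg h hh he
      have he' : σ g⁻¹ v = σ h⁻¹ v := he
      have e1 : σ (h * g⁻¹) v = v := by
        rw [hm h (hF1 h hh) _ (hF2 g hg), he', ← hm h (hF1 h hh) _ (hF2 h hh), mul_inv_cancel, h1]
      have e2 := hfree _ (hF3 h hh g hg) e1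
      exact (mul_inv_eq_one.1 e2).symm

/-- sofic models in the usual notation -/
theorem modelled_of {G A : Type} [Group G] (X : Set (G → A))
    (h : ∀ (F W : Finset G) (ε : ℝ), 0 < ε → ∃ (V : Type) (_ : Fintype V) (_ : Nonempty V)
      (σ : G → Equiv.Perm V) (m : V → A),
      (∀ g ∈ F, ∀ h ∈ F,
        (1 - ε) * Nat.card V ≤ Nat.card {v : V // σ (g * h) v = σ g (σ h v)} ∧
        (g ≠ 1 → (1 - ε) * Nat.card V ≤ Nat.card {v : V // σ g v ≠ v})) ∧
      (1 - ε) * Nat.card V ≤ Nat.card {v : V // ∃ x ∈ X, ∀ w ∈ W, m (σ w⁻¹ v) = x w}) :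
    Modelled X := by
  classical
  intro F W ε hε
  obtain ⟨F', δ, hδ, hδε, hF'⟩ := ex_of_sofic F (ε / 2) (by positivity)
  obtain ⟨V, hV1, hV2, σ, m, h1, h2⟩ := h F' W δ hδ
  obtain ⟨U, hU, hex⟩ := hF' V σ h1
  have h3 := card_not_le _ _ h2
  refine ⟨V, hV1, hV2, fun g => σ g⁻¹, m, U ∪ univ.filter
    (fun v => ¬ ∃ x ∈ X, ∀ w ∈ W, m (σ w⁻¹ v) = x w), ?_, ?_, ?_⟩
  · have h4 : ((U ∪ univ.filter
        (fun v => ¬ ∃ x ∈ X, ∀ w ∈ W, m (σ w⁻¹ v) = x w)).card : ℝ) ≤ U.card + (univ.filter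
        (fun v => ¬ ∃ x ∈ X, ∀ w ∈ W, m (σ w⁻¹ v) = x w)).card := by
      exact_mod_cast card_union_le _ _
    have h5 : δ * Fintype.card V ≤ ε / 2 * Fintype.card V := by gcongr
    linarith
  · intro v hv
    exact hex v fun h => hv (mem_union_left _ h)
  · intro v hv
    by_contra hne
    exact hv (mem_union_right _ (mem_filter.2 ⟨mem_univ _, hne⟩))

/-- local filling on `X` gives a filling rule -/
theorem fill_of_local {G A : Type} [Group G] (X : Set (G → A)) (xs : G → A) (B E E' : Finset G)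
    (f : (G → A) → G → A) (hB : B ⊆ E)
    (hloc : ∀ x ∈ X, ∀ y ∈ X, (∀ g ∈ E', x g = y g) → ∀ e ∈ E, f x e = f y e)
    (hf : ∀ x ∈ X, f x ∈ X ∧ (∀ b ∈ B, f x b = xs b) ∧ ∀ g, g ∉ E → f x g = x g) :
    ∃ (E E' : Finset G) (f : (G → A) → G → A), Fill X xs B E E' f := by
  classical
  obtain ⟨c, hc⟩ : ∃ c : ((E ∪ E' : Finset G) → A) → G → A, ∀ p, c p =
      if h : ∃ y ∈ X, ∀ g : (E ∪ E' : Finset G), y g = p g then f h.choose else xs :=
    ⟨_, fun _ => rfl⟩
  refine ⟨E, E ∪ E', fun x => c (fun g => x g), hB, subset_union_left, ?_, ?_, ?_⟩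
  · intro x y hxy e _
    have : (fun g : (E ∪ E' : Finset G) => x g) = fun g : (E ∪ E' : Finset G) => y g :=
      funext fun g => hxy g.1 g.2
    show c (fun g => x g) e = c (fun g => y g) e
    rw [this]
  · intro x hx z hz1 hz2
    have hex : ∃ y ∈ X, ∀ g : (E ∪ E' : Finset G), y g = x g := ⟨x, hx, fun _ => rfl⟩
    have h1 : c (fun g => x g) = f hex.choose := by
      rw [hc]
      exact dif_pos hex
    have h2 := hex.choose_spec
    have h3 : z = f x := by
      funext g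
      by_cases hg : g ∈ E
      · rw [hz1 g hg]
        show c (fun g => x g) g = f x g
        rw [h1]
        exact hloc _ h2.1 _ hx (fun g' hg' => h2.2 ⟨g', mem_union_right _ hg'⟩) g hg
      · rw [hz2 g hg, (hf x hx).2.2 g hg]
    rw [h3]
    exact (hf x hx).1
  · intro x b hb
    show c (fun g => x g) b = xs b
    rw [hc]
    split_ifs with h
    · exact (hf _ h.choose_spec.1).2.1 b hb
    · rfl

end Pool.Agent.TH84.SF
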