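import Pool.Agent.TH84.SF.Spec2
import Pool.Agent.TH84.SF.Conv

/-!
# Strong spatial mixing over a sofic group gives sofic models
-/

set_option autoImplicit false

namespace Pool.Agent.TH84.SF

open Finset

theorem modelled_of_mix (hT2 : S_T2) {G A : Type} [Group G] (X : Set (G → A))
    (hs : ∀ (F : Finset G) (ε : ℝ), 0 < ε → ∃ (V : Type) (_ : Fintype V) (_ : Nonempty V)
      (σ : G → Equiv.Perm V), ∀ g ∈ F, ∀ h ∈ F,
        (1 - ε) * Nat.card V ≤ Nat.card {v : V // σ (g * h) v = σ g (σ h v)} ∧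
        (g ≠ 1 → (1 - ε) * Nat.card V ≤ Nat.card {v : V // σ g v ≠ v}))
    (hinv : ∀ g : G, ∀ x ∈ X, (fun h => x (g⁻¹ * h)) ∈ X) (hm : SMix X) (hne : X.Nonempty) :
    Modelled X := by
  classical
  intro F W ε hε
  obtain ⟨F2, hF2⟩ := hT2 G A X hinv hm hne W
  have hW : (0 : ℝ) < (W.card : ℝ) + 1 := by positivity
  obtain ⟨F', δ, hδ, hδε, hF'⟩ := ex_of_sofic (F ∪ F2) (ε / ((W.card : ℝ) + 1)) (by positivity)
  obtain ⟨V, hV1, hV2, σ, h1⟩ := hs F' δ hδ
  obtain ⟨U, hU, hex⟩ := hF' V σ h1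
  have hsub : ∀ (F₁ F₂ : Finset G) (v : V), F₁ ⊆ F₂ → Ex (fun g => σ g⁻¹) F₂ v →
      Ex (fun g => σ g⁻¹) F₁ v := fun F₁ F₂ v h12 h =>
    ⟨h.1, fun g hg k hk => h.2.1 g (h12 hg) k (h12 hk), fun g hg k hk => h.2.2 g (h12 hg) k (h12 hk)⟩
  obtain ⟨m, hmm⟩ := hF2 V (fun g => σ g⁻¹) U
    (fun v hv => hsub _ _ v subset_union_right (hex v hv))
  refine ⟨V, hV1, hV2, fun g => σ g⁻¹, m, U ∪ W.biUnion
    (fun w => univ.filter (fun v => σ w⁻¹ v ∈ U)), ?_, ?_, ?_⟩
  · have h4 : (W.biUnion (fun w => univ.filter (fun v => σ w⁻¹ v ∈ U))).card ≤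
        W.card * U.card := by
      refine card_biUnion_le_card_mul _ _ _ fun w _ => ?_
      refine card_le_card_of_injOn (σ w⁻¹) ?_ (σ w⁻¹).injective.injOn
      intro v hv
      simpa using hv
    have h5 : (U ∪ W.biUnion (fun w => univ.filter (fun v => σ w⁻¹ v ∈ U))).card ≤
        (W.card + 1) * U.card := by
      refine (card_union_le _ _).trans ?_
      nlinarith
    have h6 : ((U ∪ W.biUnion (fun w => univ.filter (fun v => σ w⁻¹ v ∈ U))).card : ℝ) ≤
        ((W.card : ℝ) + 1) * U.card := by exact_mod_cast h5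
    calc ((U ∪ W.biUnion (fun w => univ.filter (fun v => σ w⁻¹ v ∈ U))).card : ℝ)
        ≤ ((W.card : ℝ) + 1) * U.card := h6
      _ ≤ ((W.card : ℝ) + 1) * (ε / ((W.card : ℝ) + 1) * Fintype.card V) :=
          mul_le_mul_of_nonneg_left hU hW.le
      _ = ε * Fintype.card V := by field_simp
  · intro v hv
    exact hsub _ _ v subset_union_left (hex v fun h => hv (mem_union_left _ h))
  · intro v hv
    simp only [mem_union, not_or] at hv
    refine hmm v hv.1 fun w hw h => hv.2 ?_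
    exact mem_biUnion.2 ⟨w, hw, mem_filter.2 ⟨mem_univ _, h⟩⟩

end Pool.Agent.TH84.SF
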