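import Mathlib

/-!
# Surjunctivity over sofic groups by insertion: specification of the pieces

`v·g := s g v`.  A configuration `x : G → A` is looked at from `g` by `tr g x = x (g * ·)`.
-/

set_option autoImplicit false

namespace Pool.Agent.TH84.SF

/-- The translate `h ↦ x (g h)`. -/
def tr {G A : Type} [Group G] (g : G) (x : G → A) : G → A := fun h => x (g * h)

/-- Local data of an injective, non surjective automaton: `r x` is the value at `1` of the image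
of `x`. -/
structure Bad {G A : Type} [Group G] (X : Set (G → A)) (M M' B : Finset G)
    (r : (G → A) → A) (xs : G → A) : Prop where
  inv : ∀ g : G, ∀ x ∈ X, tr g x ∈ X
  loc : ∀ x ∈ X, ∀ y ∈ X, (∀ g ∈ M, x g = y g) → r x = r y
  img : ∀ x ∈ X, (fun g => r (tr g x)) ∈ X
  back : ∀ x ∈ X, ∀ y ∈ X, (∀ g ∈ M', r (tr g x) = r (tr g y)) → x 1 = y 1
  mem : xs ∈ X
  miss : ∀ x ∈ X, ∃ b ∈ B, r (tr b x) ≠ xs b

/-- A local filling rule: writing `f x` on `E` keeps `x` in `X` and shows `xs` on `B`. -/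
structure Fill {G A : Type} [Group G] (X : Set (G → A)) (xs : G → A) (B E E' : Finset G)
    (f : (G → A) → G → A) : Prop where
  subB : B ⊆ E
  subE : E ⊆ E'
  loc : ∀ x y : G → A, (∀ g ∈ E', x g = y g) → ∀ e ∈ E, f x e = f y e
  mem : ∀ x ∈ X, ∀ z : G → A, (∀ g ∈ E, z g = f x g) → (∀ g, g ∉ E → z g = x g) → z ∈ X
  shows : ∀ x : G → A, ∀ b ∈ B, f x b = xs b

/-- `s` is exact at `v` with respect to `F`. -/
def Ex {G V : Type} [Group G] (s : G → Equiv.Perm V) (F : Finset G) (v : V) : Prop :=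
  s 1 v = v ∧ (∀ g ∈ F, ∀ h ∈ F, s h (s g v) = s (g * h) v) ∧
    ∀ g ∈ F, ∀ h ∈ F, s g v = s h v → g = h

/-- the labellings of `V` that look like `X` on `W` at all vertices outside `U`. -/
def AdmSet {G A V : Type} (X : Set (G → A)) (s : G → Equiv.Perm V) (W : Finset G)
    (U : Finset V) : Set (V → A) :=
  {m | ∀ v, v ∉ U → ∃ x ∈ X, ∀ w ∈ W, m (s w v) = x w}

/-- those that show `xs` on `B` at no vertex outside `U`. -/
def ZSet {G A V : Type} (X : Set (G → A)) (s : G → Equiv.Perm V) (W : Finset G)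
    (U : Finset V) (B : Finset G) (xs : G → A) : Set (V → A) :=
  {m | m ∈ AdmSet X s W U ∧ ∀ v, v ∉ U → ∃ b ∈ B, m (s b v) ≠ xs b}

/-- (K) compactness. -/
def S_K : Prop :=
  ∀ (G A : Type) [Group G] [Finite A] [TopologicalSpace A] [DiscreteTopology A]
    (X : Set (G → A)), IsClosed X → (∀ g : G, ∀ x ∈ X, (fun h => x (g⁻¹ * h)) ∈ X) →
    ∀ τ : X → X, Continuous τ →
    (∀ (g : G) (x y : X), (∀ h, y.1 h = x.1 (g⁻¹ * h)) → ∀ h, (τ y).1 h = (τ x).1 (g⁻¹ * h)) →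
    Function.Injective τ → ¬ Function.Surjective τ →
    ∃ (M M' B : Finset G) (r : (G → A) → A) (xs : G → A), Bad X M M' B r xs

/-- (A) the automaton on labellings: `T(m)(v) = r x` for `v ∉ U'` with `x ∈ X` matching `m` at `v`
on `W'` (`= m v` for `v ∈ U'`) sends `AdmSet W' U'` into `ZSet Wp U`, and is injective on
labellings with given values on `U`. -/
def S_A : Prop :=
  ∀ (G A V : Type) [Group G] [Finite A] [Finite V] (X : Set (G → A)) (M M' B : Finset G)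
    (r : (G → A) → A) (xs : G → A), Bad X M M' B r xs →
    ∀ (s : G → Equiv.Perm V) (Wp W' F : Finset G) (U U' : Finset V),
    M' ⊆ Wp → B ⊆ Wp → (1 : G) ∈ W' → M ⊆ W' → (∀ w ∈ Wp, ∀ g ∈ M, w * g ∈ W') →
    Wp ⊆ F → M ⊆ F → (∀ v, v ∉ U → Ex s F v) →
    (∀ v, v ∉ U → v ∉ U' ∧ ∀ w ∈ Wp, s w v ∉ U') →
    (AdmSet X s W' U').ncard ≤ Nat.card A ^ U.card * (ZSet X s Wp U B xs).ncard

/-- (I) several insertions into a configuration of `X` at disjoint places. -/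
def S_I : Prop :=
  ∀ (G A : Type) [Group G] (X : Set (G → A)) (xs : G → A) (B E E' : Finset G)
    (f : (G → A) → G → A), (∀ g : G, ∀ x ∈ X, tr g x ∈ X) → Fill X xs B E E' f →
    ∀ J : Finset G, (∀ g ∈ J, ∀ g' ∈ J, ∀ e ∈ E', ∀ e' ∈ E', g * e = g' * e' → g = g') →
    ∀ x ∈ X, ∃ x' ∈ X, (∀ g ∈ J, ∀ e ∈ E, x' (g * e) = f (tr g x) e) ∧
      ∀ h, (∀ g ∈ J, g⁻¹ * h ∉ E) → x' h = x h

/-- (C) insertions into labellings: the labellings `ins_T m` (`m ∈ Z`, `T ⊆ S`), where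
`ins_T m (v·e) = f (w ↦ m (v·w)) e` for `v ∈ T`, `e ∈ E` and `m` elsewhere, are in `AdmSet W U`,
`T` can be read off, and the fibre over `ins_T m` has at most `q ^ |T|` elements;
`∑_T q ^ (|S| - |T|) = (q + 1) ^ |S|`. -/
def S_C : Prop :=
  ∀ (G A V : Type) [Group G] [Finite A] [Finite V] (X : Set (G → A)) (xs : G → A)
    (B E E' : Finset G) (f : (G → A) → G → A), (∀ g : G, ∀ x ∈ X, tr g x ∈ X) →
    Fill X xs B E E' f →
    ∀ (s : G → Equiv.Perm V) (W Wp F : Finset G) (U S : Finset V),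
    W ⊆ Wp → (∀ w ∈ W, ∀ e ∈ E, ∀ e' ∈ E', w * e⁻¹ * e' ∈ Wp) →
    W ⊆ F → E' ⊆ F → (∀ e ∈ E, e⁻¹ ∈ F) → (∀ w ∈ W, ∀ e ∈ E, w * e⁻¹ ∈ F) →
    (∀ v, v ∉ U → Ex s F v) → (∀ v ∈ S, v ∉ U) →
    (∀ v ∈ S, ∀ v' ∈ S, ∀ e ∈ E', ∀ e' ∈ E', s e v = s e' v' → v = v') →
    (ZSet X s Wp U B xs).ncard * (Nat.card A ^ E.card + 1) ^ S.card ≤
      (Nat.card A ^ E.card) ^ S.card * (AdmSet X s W U).ncard

/-- (P) a maximal packing. -/
def S_P : Prop :=
  ∀ (G V : Type) [Group G] [Fintype V] (s : G → Equiv.Perm V) (E' : Finset G) (U : Finset V),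
    E'.Nonempty → ∃ S : Finset V, (∀ v ∈ S, v ∉ U) ∧
      (∀ v ∈ S, ∀ v' ∈ S, ∀ e ∈ E', ∀ e' ∈ E', s e v = s e' v' → v = v') ∧
      Fintype.card V ≤ U.card + E'.card ^ 2 * S.card

/-- (N) the numbers: with `r = (q + 1) / q` and `r ^ k > A ^ (4 c)`, raise the steps to the power
`2 c` and multiply: `r ^ (n k) ≤ A ^ (4 c n)`. -/
def S_N : Prop :=
  ∀ q A c : ℕ, 1 ≤ q → 1 ≤ A → ∃ k : ℕ, 2 ≤ k ∧ ∀ (n : ℕ) (a u s : ℕ → ℕ), 1 ≤ n → 1 ≤ a k →
    a 0 ≤ A ^ n → (∀ j < k, k * u j ≤ n) → (∀ j < k, n ≤ 2 * c * s j) →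
    (∀ j < k, a (j + 1) * (q + 1) ^ s j ≤ A ^ u j * q ^ s j * a j) → False

/-- `X` has sofic models: almost exact actions on finite sets with a labelling that looks like `X`
at almost all vertices. -/
def Modelled {G A : Type} [Group G] (X : Set (G → A)) : Prop :=
  ∀ (F W : Finset G) (ε : ℝ), 0 < ε → ∃ (V : Type) (_ : Fintype V) (_ : Nonempty V)
    (s : G → Equiv.Perm V) (m : V → A) (U : Finset V),
    (U.card : ℝ) ≤ ε * Fintype.card V ∧ (∀ v, v ∉ U → Ex s F v) ∧ m ∈ AdmSet X s W U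

/-- (D) the chain of `k` steps (`W_0 = {1}`, `U_k` from `Modelled`,
`U_j = U_(j+1) ∪ {v | ∃ g ∈ K, v·g ∈ U_(j+1)}`). -/
def S_D : Prop :=
  ∀ (G A : Type) [Group G] [Finite A] (X : Set (G → A)) (M M' B : Finset G)
    (r : (G → A) → A) (xs : G → A), Bad X M M' B r xs →
    (∃ (E E' : Finset G) (f : (G → A) → G → A), Fill X xs B E E' f) → Modelled X → False

/-- (F1) strong irreducibility and the topological Markov property give filling rules. -/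
def S_F1 : Prop :=
  ∀ (G A : Type) [Group G] [Finite A] (X : Set (G → A)),
    (∃ Δ : Finset G, ∀ Ω₁ Ω₂ : Finset G, (∀ w ∈ Ω₁, ∀ d ∈ Δ, w * d ∉ Ω₂) →
      ∀ x₁ ∈ X, ∀ x₂ ∈ X, ∃ z ∈ X, (∀ w ∈ Ω₁, z w = x₁ w) ∧ (∀ w ∈ Ω₂, z w = x₂ w)) →
    (∀ E : Finset G, ∃ E' : Finset G, ∀ x ∈ X, ∀ y ∈ X,
      (∀ g ∈ E', g ∉ E → x g = y g) → ∀ z : G → A, (∀ g ∈ E, z g = x g) →
      (∀ g, g ∉ E → z g = y g) → z ∈ X) →
    ∀ xs ∈ X, ∀ B : Finset G, ∃ (E E' : Finset G) (f : (G → A) → G → A), Fill X xs B E E' f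

/-- (F2) strong irreducibility and a safe symbol give filling rules (`X` closed). -/
def S_F2 : Prop :=
  ∀ (G A : Type) [Group G] [Finite A] [TopologicalSpace A] [DiscreteTopology A]
    (X : Set (G → A)), IsClosed X →
    (∃ Δ : Finset G, ∀ Ω₁ Ω₂ : Finset G, (∀ w ∈ Ω₁, ∀ d ∈ Δ, w * d ∉ Ω₂) →
      ∀ x₁ ∈ X, ∀ x₂ ∈ X, ∃ z ∈ X, (∀ w ∈ Ω₁, z w = x₁ w) ∧ (∀ w ∈ Ω₂, z w = x₂ w)) →
    (∃ o : A, ∀ x ∈ X, ∀ z : G → A, (∀ g, z g = x g ∨ z g = o) → z ∈ X) →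
    ∀ xs ∈ X, ∀ B : Finset G, ∃ (E E' : Finset G) (f : (G → A) → G → A), Fill X xs B E E' f

/-- (V) over a sofic group a subshift with a point of finite orbit has sofic models:
`V × O` with `O` the orbit and `m (v, o) = o 1`. -/
def S_V : Prop :=
  ∀ (G A : Type) [Group G] (X : Set (G → A)),
    (∀ (F : Finset G) (ε : ℝ), 0 < ε → ∃ (V : Type) (_ : Fintype V) (_ : Nonempty V)
      (σ : G → Equiv.Perm V), ∀ g ∈ F, ∀ h ∈ F,
        (1 - ε) * Nat.card V ≤ Nat.card {v : V // σ (g * h) v = σ g (σ h v)} ∧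
        (g ≠ 1 → (1 - ε) * Nat.card V ≤ Nat.card {v : V // σ g v ≠ v})) →
    (∀ g : G, ∀ x ∈ X, (fun h => x (g⁻¹ * h)) ∈ X) →
    (∃ x ∈ X, (Set.range (fun g : G => fun h : G => x (g⁻¹ * h))).Finite) → Modelled X

end Pool.Agent.TH84.SF
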