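import Pool.Agent.TH84.SF.Chain
import Pool.Agent.TH84.SF.Conv
import Pool.Agent.T9h64.SF.K
import Pool.Agent.T9h73.SF.A
import Pool.Agent.T9h73.SF.V
import Pool.Agent.T9h71.SF.I
import Pool.Agent.T9h71.SF.N
import Pool.Agent.T9h91.SF.C
import Pool.Agent.T9h91.SF.P
import Pool.Agent.T9h89.SF.F1
import Pool.Agent.T9h48.SF.F2

/-!
# Assembly
-/

set_option autoImplicit false

namespace Pool.Agent.TH84.SF

theorem dD : S_D :=
  sD Pool.Agent.T9h73.SF.sA (Pool.Agent.T9h91.SF.sC Pool.Agent.T9h71.SF.sI)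
    Pool.Agent.T9h91.SF.sP Pool.Agent.T9h71.SF.sN

theorem surj_gen (G A : Type) [Group G] [Finite A] [TopologicalSpace A] [DiscreteTopology A]
    (X : Set (G → A)) (hcl : IsClosed X) (hinv : ∀ g : G, ∀ x ∈ X, (fun h => x (g⁻¹ * h)) ∈ X)
    (hfill : ∀ xs ∈ X, ∀ B : Finset G, ∃ (E E' : Finset G) (f : (G → A) → G → A),
      Fill X xs B E E' f) (hmod : Modelled X)
    (τ : X → X) (hτ : Continuous τ)
    (he : ∀ (g : G) (x y : X), (∀ h, y.1 h = x.1 (g⁻¹ * h)) → ∀ h, (τ y).1 h = (τ x).1 (g⁻¹ * h))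
    (hinj : Function.Injective τ) : Function.Surjective τ := by
  by_contra h
  obtain ⟨M, M', B, r, xs, hb⟩ := Pool.Agent.T9h64.SF.sK G A X hcl hinv τ hτ he hinj h
  exact dD G A X M M' B r xs hb (hfill xs hb.mem B) hmod

end Pool.Agent.TH84.SF
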