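import Pool.Agent.TH84.SF.Spec

/-!
# The chain of steps
-/

set_option autoImplicit false

namespace Pool.Agent.TH84.SF

open Finset

theorem sD (hA : S_A) (hC : S_C) (hP : S_P) (hN : S_N) : S_D := by
  classical
  intro G A _ _ X M M' B r xs hbad ⟨E, E', f, hfill⟩ hmod
  obtain ⟨Wp, hWp⟩ : ∃ Wp : Finset G → Finset G, ∀ W, Wp W = W ∪ W.biUnion
      (fun w => E.biUnion fun e => E'.image fun e' => w * e⁻¹ * e') ∪ B ∪ M' := ⟨_, fun _ => rfl⟩
  obtain ⟨nx, hnx⟩ : ∃ nx : Finset G → Finset G, ∀ W, nx W = Wp W ∪ (Wp W).biUnion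
      (fun w => M.image fun g => w * g) ∪ M ∪ {1} := ⟨_, fun _ => rfl⟩
  obtain ⟨Wn, hW0, hWs⟩ : ∃ Wn : ℕ → Finset G, Wn 0 = ∅ ∧ ∀ j, Wn (j + 1) = nx (Wn j) :=
    ⟨fun j => nx^[j] ∅, rfl, fun j => Function.iterate_succ_apply' _ _ _⟩
  have hsub1 : ∀ W, W ⊆ Wp W := by
    intro W w hw
    rw [hWp]
    simp only [mem_union]
    exact Or.inl (Or.inl (Or.inl hw))
  have hsub2 : ∀ W, Wp W ⊆ nx W := by
    intro W w hw
    rw [hnx]
    simp only [mem_union]
    exact Or.inl (Or.inl (Or.inl hw))
  have hmono : ∀ j i, j ≤ i → Wn j ⊆ Wn i := by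
    intro j i hji
    induction i, hji using Nat.le_induction with
    | base => exact Finset.Subset.refl _
    | succ i _ ih =>
      rw [hWs]
      exact ih.trans ((hsub1 _).trans (hsub2 _))
  have hAne : 1 ≤ Nat.card A := by
    haveI : Nonempty A := ⟨xs 1⟩
    exact Nat.card_pos
  have hE' : E'.Nonempty := by
    obtain ⟨b, hb, _⟩ := hbad.miss xs hbad.mem
    exact ⟨b, hfill.subE (hfill.subB hb)⟩
  obtain ⟨k, hk2, hk⟩ := hN (Nat.card A ^ E.card) (Nat.card A) (E'.card ^ 2)
    (Nat.one_le_pow _ _ hAne) hAne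
  obtain ⟨K, hK⟩ : ∃ K, K = Wn k := ⟨_, rfl⟩
  obtain ⟨F, hF⟩ : ∃ F : Finset G, F = K ∪ M ∪ E' ∪ E.image (fun e => e⁻¹) ∪
    K.biUnion (fun w => E.image fun e => w * e⁻¹) := ⟨_, rfl⟩
  have hkpos : (0 : ℝ) < k := by exact_mod_cast (by omega : 0 < k)
  have hKpos : (0 : ℝ) < ((K.card : ℝ) + 1) ^ k := by positivity
  obtain ⟨V, hV1, hV2, s, m, U0, hU0, hex, hm⟩ := hmod F K (1 / (k * ((K.card : ℝ) + 1) ^ k))
    (by positivity)
  obtain ⟨grow, hgrow⟩ : ∃ grow : Finset V → Finset V, ∀ U, grow U = U ∪ K.biUnion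
      (fun g => univ.filter (fun v => s g v ∈ U)) := ⟨_, fun _ => rfl⟩
  obtain ⟨Un, hUn⟩ : ∃ Un : ℕ → Finset V, ∀ j, Un j = grow^[k - j] U0 := ⟨_, fun _ => rfl⟩
  have hcg : ∀ U, (grow U).card ≤ (K.card + 1) * U.card := by
    intro U
    rw [hgrow]
    refine (card_union_le _ _).trans ?_
    have h1 : (K.biUnion (fun g => univ.filter (fun v => s g v ∈ U))).card ≤ K.card * U.card := by
      refine card_biUnion_le_card_mul _ _ _ fun g _ => ?_
      refine card_le_card_of_injOn (s g) ?_ (s g).injective.injOn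
      intro v hv
      simpa using hv
    nlinarith
  have hci : ∀ i, (grow^[i] U0).card ≤ (K.card + 1) ^ i * U0.card := by
    intro i
    induction i with
    | zero => simp
    | succ i ih =>
      rw [Function.iterate_succ_apply']
      refine (hcg _).trans ?_
      calc (K.card + 1) * (grow^[i] U0).card ≤ (K.card + 1) * ((K.card + 1) ^ i * U0.card) :=
            Nat.mul_le_mul_left _ ih
        _ = (K.card + 1) ^ (i + 1) * U0.card := by ring
  have hstep : ∀ j < k, Un j = grow (Un (j + 1)) := by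
    intro j hj
    rw [hUn, hUn, ← Function.iterate_succ_apply' grow]
    congr 2
    omega
  have hsubU : ∀ i, U0 ⊆ grow^[i] U0 := by
    intro i
    induction i with
    | zero => exact Finset.Subset.refl _
    | succ i ih =>
      rw [Function.iterate_succ_apply', hgrow]
      exact ih.trans subset_union_left
  have hcardU : ∀ j, k * (Un j).card ≤ Fintype.card V := by
    intro j
    have h1 : ((Un j).card : ℝ) ≤ ((K.card : ℝ) + 1) ^ k * U0.card := by
      have h2 : (Un j).card ≤ (K.card + 1) ^ k * U0.card := by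
        rw [hUn]
        refine (hci _).trans (Nat.mul_le_mul_right _ ?_)
        exact Nat.pow_le_pow_right (by omega) (by omega)
      exact_mod_cast h2
    have h3 : (k : ℝ) * (Un j).card ≤ Fintype.card V := by
      calc (k : ℝ) * (Un j).card ≤ k * (((K.card : ℝ) + 1) ^ k * U0.card) :=
            mul_le_mul_of_nonneg_left h1 hkpos.le
        _ ≤ k * (((K.card : ℝ) + 1) ^ k *
              (1 / (k * ((K.card : ℝ) + 1) ^ k) * Fintype.card V)) := by gcongr
        _ = Fintype.card V := by field_simp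
    exact_mod_cast h3
  have hS : ∀ j, ∃ S : Finset V, (∀ v ∈ S, v ∉ Un j) ∧
      (∀ v ∈ S, ∀ v' ∈ S, ∀ e ∈ E', ∀ e' ∈ E', s e v = s e' v' → v = v') ∧
      Fintype.card V ≤ (Un j).card + E'.card ^ 2 * S.card := fun j => hP G V s E' (Un j) hE'
  choose S hS1 hS2 hS3 using hS
  have hn : 1 ≤ Fintype.card V := Fintype.card_pos
  refine hk (Fintype.card V) (fun j => (AdmSet X s (Wn j) (Un j)).ncard) (fun j => (Un j).card)
    (fun j => (S j).card) hn ?_ ?_ (fun j _ => hcardU j) ?_ ?_
  · show 1 ≤ (AdmSet X s (Wn k) (Un k)).ncard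
    have h0 : Un k = U0 := by rw [hUn]; simp
    rw [h0, ← hK]
    exact (Set.ncard_pos (Set.toFinite _)).2 ⟨m, hm⟩
  · show (AdmSet X s (Wn 0) (Un 0)).ncard ≤ _
    refine (Set.ncard_le_ncard (Set.subset_univ _) (Set.toFinite _)).trans ?_
    rw [Set.ncard_univ, Nat.card_fun, Nat.card_eq_fintype_card (α := V)]
  · intro j hj
    have h1 := hS3 j
    have h2 := hcardU j
    have h3 : 2 * (Un j).card ≤ k * (Un j).card := Nat.mul_le_mul_right _ hk2
    show Fintype.card V ≤ 2 * E'.card ^ 2 * (S j).card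
    nlinarith
  · intro j hj
    have hsK : ∀ w ∈ Wp (Wn j), w ∈ K := by
      intro w hw
      rw [hK]
      refine hmono (j + 1) k hj ?_
      rw [hWs]
      exact hsub2 _ hw
    have hKF : ∀ w ∈ K, w ∈ F := by
      intro w hw
      rw [hF]
      simp only [mem_union]
      exact Or.inl (Or.inl (Or.inl (Or.inl hw)))
    have hexj : ∀ v, v ∉ Un j → Ex s F v := by
      intro v hv
      refine hex v fun h => hv ?_
      rw [hUn]
      exact hsubU _ h
    have e1 := hA G A V X M M' B r xs hbad s (Wp (Wn j)) (Wn (j + 1)) F (Un j) (Un (j + 1))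
      (by
        intro w hw
        rw [hWp]
        exact mem_union_right _ hw)
      (by
        intro w hw
        rw [hWp]
        exact mem_union_left _ (mem_union_right _ hw))
      (by
        rw [hWs, hnx]
        exact mem_union_right _ (mem_singleton_self _))
      (by
        intro w hw
        rw [hWs, hnx]
        exact mem_union_left _ (mem_union_right _ hw))
      (by
        intro w hw g hg
        rw [hWs, hnx]
        refine mem_union_left _ (mem_union_left _ (mem_union_right _ ?_))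
        exact mem_biUnion.2 ⟨w, hw, mem_image.2 ⟨g, hg, rfl⟩⟩)
      (fun w hw => hKF w (hsK w hw))
      (by
        intro w hw
        rw [hF]
        simp only [mem_union]
        exact Or.inl (Or.inl (Or.inl (Or.inr hw))))
      hexj
      (by
        intro v hv
        rw [hstep j hj, hgrow] at hv
        simp only [mem_union, not_or] at hv
        refine ⟨hv.1, fun w hw h => hv.2 ?_⟩
        exact mem_biUnion.2 ⟨w, hsK w hw, mem_filter.2 ⟨mem_univ _, h⟩⟩)
    have e2 := hC G A V X xs B E E' f hbad.inv hfill s (Wn j) (Wp (Wn j)) F (Un j) (S j)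
      (hsub1 _)
      (by
        intro w hw e he e' he'
        rw [hWp]
        refine mem_union_left _ (mem_union_left _ (mem_union_right _ ?_))
        exact mem_biUnion.2 ⟨w, hw, mem_biUnion.2 ⟨e, he, mem_image.2 ⟨e', he', rfl⟩⟩⟩)
      (fun w hw => hKF w (hsK w (hsub1 _ hw)))
      (by
        intro w hw
        rw [hF]
        simp only [mem_union]
        exact Or.inl (Or.inl (Or.inr hw)))
      (by
        intro e he
        rw [hF]
        simp only [mem_union]
        exact Or.inl (Or.inr (mem_image.2 ⟨e, he, rfl⟩)))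
      (by
        intro w hw e he
        rw [hF]
        refine mem_union_right _ ?_
        exact mem_biUnion.2 ⟨w, hsK w (hsub1 _ hw), mem_image.2 ⟨e, he, rfl⟩⟩)
      hexj (hS1 j) (hS2 j)
    show (AdmSet X s (Wn (j + 1)) (Un (j + 1))).ncard * (Nat.card A ^ E.card + 1) ^ (S j).card ≤
      Nat.card A ^ (Un j).card * (Nat.card A ^ E.card) ^ (S j).card *
        (AdmSet X s (Wn j) (Un j)).ncard
    calc (AdmSet X s (Wn (j + 1)) (Un (j + 1))).ncard * (Nat.card A ^ E.card + 1) ^ (S j).card
        ≤ (Nat.card A ^ (Un j).card * (ZSet X s (Wp (Wn j)) (Un j) B xs).ncard) *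
            (Nat.card A ^ E.card + 1) ^ (S j).card := Nat.mul_le_mul_right _ e1
      _ = Nat.card A ^ (Un j).card * ((ZSet X s (Wp (Wn j)) (Un j) B xs).ncard *
            (Nat.card A ^ E.card + 1) ^ (S j).card) := by ring
      _ ≤ Nat.card A ^ (Un j).card * ((Nat.card A ^ E.card) ^ (S j).card *
            (AdmSet X s (Wn j) (Un j)).ncard) := Nat.mul_le_mul_left _ e2
      _ = _ := by ring

end Pool.Agent.TH84.SF
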